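import Pool.Agent.R55.PawGraph

/-!
# Two connected graphs that are 2-chromatically related and not n-chromatically related for n ≥ 3

All graphs are finite, and all containments are as induced subgraphs. `FreeChromaticNumberEq H F l`
says that `χ(H : -F) = l`; see `Pool.Agent.Results.MP_fbe9f6_co.BipartiteRelated`. The paw `Paw` is
the triangle with a pendant edge.
-/

set_option autoImplicit false

namespace Pool.Agent.Results.MP_d44e62_co.TwoNotThree

open Pool.Agent.Results.MP_fbe9f6_co.BipartiteRelated Pool.Agent.R55.PawGraph

/-- `F` and `G` are `n`-chromatically related: some finite graph `H` has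
`χ(H : -F) = χ(H : -G) = n`. -/
def NRelated {U V : Type} (n : ℕ) (F : SimpleGraph U) (G : SimpleGraph V) : Prop :=
  ∃ (W : Type) (_ : Finite W) (H : SimpleGraph W),
    FreeChromaticNumberEq H F n ∧ FreeChromaticNumberEq H G n

/-- **The answer is no.** There is a finite connected graph `G` with at least two vertices such that
the paw (a connected graph on four vertices) and `G` are `n`-chromatically related for `n = 1` and
`n = 2`, and for no other `n ≥ 1`. In particular they are `2`-chromatically related and not
chromatically related. -/
theorem result : ∃ (V : Type) (_ : Finite V) (_ : Nontrivial V) (G : SimpleGraph V),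
    Paw.Connected ∧ G.Connected ∧ (∀ n : ℕ, 1 ≤ n → (NRelated n Paw G ↔ n ≤ 2)) ∧
    ¬ ChromaticallyRelated Paw G := by
  have hM : 32 < 33 := by norm_num
  have hnt : Nontrivial ((Pairs 33 ⊕ Fin 11) × Bool) :=
    ⟨(Sum.inr 0, false), (Sum.inr 0, true), fun h => absurd (congrArg Prod.snd h) (by decide)⟩
  refine ⟨(Pairs 33 ⊕ Fin 11) × Bool, inferInstance, hnt, Big 33 11, paw_connected,
    big_connected 33 11 (by norm_num), ?_, ?_⟩
  · intro n hn
    constructor
    · rintro ⟨W, _, H, h⟩
      by_contra hlt
      exact not_related hM (by omega) H h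
    · intro h2
      obtain rfl | rfl : n = 1 ∨ n = 2 := by omega
      · exact ⟨Fin 1, inferInstance, ⊥, related_one Paw (Big 33 11)⟩
      · exact ⟨_, inferInstance, Big 33 11, related_two 33 (by norm_num)⟩
  · intro h
    obtain ⟨W, _, H, h3⟩ := h 3 (by norm_num)
    exact not_related hM le_rfl H h3

end Pool.Agent.Results.MP_d44e62_co.TwoNotThree
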